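import Pool.Agent.helper88.PF.Spec

set_option autoImplicit false

namespace PF

theorem BWE_len : ∀ {Γ : Po} (π : Pre Γ) (A : Po), (mg π A).2.1.len = π.len
  | _, .one _ _, _ => rfl
  | _, .snoc _ _ _, _ => rfl

theorem BWE_aux (hBTM : BTM_stmt) (hBBA : BBA_stmt) (hBMG : BMG_stmt) (hBPM : BPM_stmt) :
    ∀ (n : ℕ) (Γ : Po) (π : Pre Γ) (β : Po) (Θ : Γ → β → Prop), π.len = n →
      Tr π (fun γ => ∃ y : ℕ → β, CE y ∧ Wk (fun p => (γ p, y p)) (fun s => Θ s.1 s.2)) →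
        V π β Θ := by
  intro n
  induction n using Nat.strong_induction_on with
  | _ n ih =>
    intro Γ π β Θ hn hT
    cases π with
    | one α K => exact hBBA _ β K Θ hT
    | snoc π β₀ α =>
      obtain ⟨M, hM⟩ := hBPM _ π β₀ α β
      refine hM (fun γ t u v => Θ (γ, t, u) v) ?_
      have h1 := hBMG _ π β₀ α β M (fun γ t u v => Θ (γ, t, u) v) ?_
      · refine ih π.len ?_ _ _ _ _ (BWE_len π (α.pow M)) h1
        rw [← hn]
        exact Nat.lt_succ_self _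
      · refine hBTM _ π _ _ ?_ hT
        rintro γ hγ ⟨t, ht, h2⟩
        refine ⟨t, ht, fun x hx => ?_⟩
        obtain ⟨y, hy, h3⟩ := h2 x hx
        refine ⟨y, hy, ?_⟩
        intro R hR hRi σ hσ
        refine h3 R hR hRi ((σ.1, σ.2.1, σ.2.2.1), σ.2.2.2) ?_
        intro p hp
        have h4 := hσ p hp
        rw [← h4]

theorem BWE (hBTM : BTM_stmt) (hBBA : BBA_stmt) (hBMG : BMG_stmt) (hBPM : BPM_stmt) :
    BWE_stmt := by
  intro Γ π β Θ hT
  exact BWE_aux hBTM hBBA hBMG hBPM _ Γ π β Θ rfl hT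

end PF
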